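import Mathlib
import Pool.Agent.N754.LG.Use
import Pool.Agent.N754.FG.Main
import Pool.Agent.N49.FG.RQ1
import Pool.Agent.N455.FG.RQ3
import Pool.Agent.N558.FG.SP
import Pool.Agent.N441.FG.TR

/-!
MP_c69980_ag, Q1: the extended Lang–Vojta conjecture for affine varieties whose function field is
generated by units.
-/

set_option autoImplicit false
set_option linter.overlappingInstances false

namespace Pool.Agent.Results.MP_c69980_ag.GeneratedByUnits

open MvPolynomial FF Pool.Agent.W603.LV Pool.Agent.H159R3.Exp Pool.Agent.W602.GT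

variable {n : ℕ}

/-- The complex points of the closed subset `V(I)` of affine space. -/
def Pts (I : Ideal (MvPolynomial (Fin n) ℂ)) : Set (Fin n → ℂ) :=
  {x | ∀ Q ∈ I, eval x Q = 0}

/-- The function field of `V(p)` is generated by the coordinates with index in `U`. Here `K` is the
function field, and `y` the generic point. -/
def GeneratedBy (p : Ideal (MvPolynomial (Fin n) ℂ)) (U : Finset (Fin n)) : Prop :=
  ∃ (K : Type) (_ : Field K) (_ : Algebra ℂ K) (y : Fin n → K),
    (∀ Q, aeval y Q = 0 ↔ Q ∈ p) ∧ IntermediateField.adjoin ℂ (y '' (U : Set (Fin n))) = ⊤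

/-- The variety `V(p)` is of logarithmic general type. Here `K` is its function field, `y` its
generic point, and the places of `K` with a pole of some coordinate are those without centre on
`V(p)`. -/
def OfLogGeneralType (p : Ideal (MvPolynomial (Fin n) ℂ)) : Prop :=
  ∃ (K : Type) (_ : Field K) (_ : Algebra ℂ K) (y : Fin n → K) (w : ℕ),
    (∀ Q, aeval y Q = 0 ↔ Q ∈ p) ∧ IntermediateField.adjoin ℂ (Set.range y) = ⊤ ∧
    LogGeneralType ℂ K w fun P => ∃ j, P.ord (y j) < 0

/-- The nonconstant entire curves in `V(I)` lie in `V(J)`. -/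
def EntireIn (I J : Ideal (MvPolynomial (Fin n) ℂ)) : Prop :=
  ∀ f : ℂ → Fin n → ℂ, Differentiable ℂ f → (∀ z, f z ∈ Pts I) → (∃ z w, f z ≠ f w) →
    ∀ z, f z ∈ Pts J

/-- The morphisms to `V(I)` from the smooth curve `C` whose function field is `K` and whose places
at infinity are those in `S`. -/
def Maps (I : Ideal (MvPolynomial (Fin n) ℂ)) {K : Type} [Field K] [Algebra ℂ K]
    (S : Finset (Place ℂ K)) : Set (Fin n → K) :=
  {f | (∀ j, ∀ P ∉ S, 0 ≤ P.ord (f j)) ∧ ∀ Q ∈ I, aeval f Q = 0}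

/-- For every smooth curve `C`, every point `P` of `C` and every point `x` of `V(I)` outside
`V(J)`, the set of the morphisms `f` from `C` to `V(I)` with `f(P) = x` is finite. -/
def PointedFinite (I J : Ideal (MvPolynomial (Fin n) ℂ)) : Prop :=
  ∀ (K : Type) [Field K] [Algebra ℂ K] [IsFF ℂ K] (S : Finset (Place ℂ K)) (P : Place ℂ K),
    P ∉ S → ∀ x ∈ Pts I, x ∉ Pts J →
    {f ∈ Maps I S | ∀ j, Ge P 1 (f j - algebraMap ℂ K (x j))}.Finite

/-- For every smooth curve `C`, the degrees of the morphisms from `C` to `V(I)` with image not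
contained in `V(J)` are bounded: `V(I)` is bounded modulo `V(J)`. -/
def BoundedModulo (I J : Ideal (MvPolynomial (Fin n) ℂ)) : Prop :=
  ∀ (K : Type) [Field K] [Algebra ℂ K] [IsFF ℂ K] (S : Finset (Place ℂ K)),
    ∃ B : ℤ, ∀ f ∈ Maps I S, f ∉ Maps J S → mapDeg ℂ f ≤ B

/-- The degree of a nonconstant morphism from a smooth curve to `V(I)` with image not contained in
`V(J)` is at most a constant times the Euler characteristic `2 g - 2 + s` of the curve. -/
def LinearBound (I J : Ideal (MvPolynomial (Fin n) ℂ)) : Prop :=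
  ∃ A : ℕ, ∀ (K : Type) [Field K] [Algebra ℂ K] [IsFF ℂ K] (S : Finset (Place ℂ K)),
    ∀ f ∈ Maps I S, f ∉ Maps J S → (∃ j, ∀ c : ℂ, f j ≠ algebraMap ℂ K c) →
    mapDeg ℂ f ≤ A * euler S

/-- The nonconstant maps `t ↦ v t`, `t ≠ 0`, to `V(I)` with Laurent coordinates (the nonconstant
morphisms from `𝔾ₘ`) have image in `V(J)`. -/
def LaurentIn (I J : Ideal (MvPolynomial (Fin n) ℂ)) : Prop :=
  ∀ v : ℂ → Fin n → ℂ, (∀ j, Laur fun t => v t j) → (∀ t, t ≠ 0 → v t ∈ Pts I) →
    (∃ s t, s ≠ 0 ∧ t ≠ 0 ∧ v s ≠ v t) → ∀ t, t ≠ 0 → v t ∈ Pts J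

theorem pts_iff (I : Ideal (MvPolynomial (Fin n) ℂ)) (x : Fin n → ℂ) :
    x ∈ Pts I ↔ ∀ Q ∈ I, aeval x Q = 0 := by
  unfold Pts
  simp only [Set.mem_setOf_eq, Pool.Agent.N754.LT.ae_eval]

/-- Let `V = V(p)` be an irreducible affine variety over `ℂ`, and `U` a set of coordinates which
have no zeros on `V` and which generate the function field of `V`. Then the following are
equivalent:
* `V` is of logarithmic general type;
* for some proper closed subset `Δ` of `V`, the nonconstant entire curves in `V` lie in `Δ`;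
* for some proper closed subset `Δ`, the sets of pointed maps `(C, P) → (V, x)` are finite, for all
  smooth curves `C` and all `x ∉ Δ`;
* `V` is bounded modulo some proper closed subset `Δ`;
* for some proper closed subset `Δ`, the nonconstant morphisms `𝔾ₘ → V` have image in `Δ`;
* there is one proper closed subset `Δ` with all these properties, and with
  `deg f ≤ A χ(C)` for the nonconstant morphisms `f` from smooth curves `C` to `V` with image not
  contained in `Δ`. -/
theorem result (p : Ideal (MvPolynomial (Fin n) ℂ)) (U : Finset (Fin n))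
    (hU : ∀ z ∈ Pts p, ∀ i ∈ U, z i ≠ 0) (hgen : GeneratedBy p U) :
    List.TFAE [OfLogGeneralType p,
      ∃ J : Ideal (MvPolynomial (Fin n) ℂ), ¬ J ≤ p ∧ EntireIn p J,
      ∃ J : Ideal (MvPolynomial (Fin n) ℂ), ¬ J ≤ p ∧ PointedFinite p J,
      ∃ J : Ideal (MvPolynomial (Fin n) ℂ), ¬ J ≤ p ∧ BoundedModulo p J,
      ∃ J : Ideal (MvPolynomial (Fin n) ℂ), ¬ J ≤ p ∧ LaurentIn p J,
      ∃ J : Ideal (MvPolynomial (Fin n) ℂ), ¬ J ≤ p ∧ EntireIn p J ∧ PointedFinite p J ∧
        BoundedModulo p J ∧ LaurentIn p J ∧ LinearBound p J] := by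
  classical
  obtain ⟨K, _, _, y, hy, hadj⟩ := hgen
  obtain ⟨H, hG⟩ := Pool.Agent.N754.LG.exists_gen U y hy hadj ℂ
    fun z hz i hi => hU z ((pts_iff p z).2 hz) i hi
  have hprime := hG.prime
  have hspan : ∀ (Q0 : MvPolynomial (Fin n) ℂ) (L : Type) [Field L] [Algebra ℂ L]
      (x : Fin n → L), (∀ Q ∈ Ideal.span {Q0}, aeval x Q = 0) ↔ aeval x Q0 = 0 := by
    intro Q0 L _ _ x
    constructor
    · intro h
      exact h _ (Ideal.mem_span_singleton_self _)
    · intro h Q hQ
      obtain ⟨R, rfl⟩ := Ideal.mem_span_singleton'.1 hQ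
      rw [map_mul, h, mul_zero]
  have hid : ∀ Q : MvPolynomial (Fin n) ℂ, map (algebraMap ℂ ℂ) Q = Q := fun Q => by
    rw [Algebra.algebraMap_self, map_id]
  let E : p → MvPolynomial (Fin n) ℂ := fun l => l.1
  have hLI : ∀ J : Ideal (MvPolynomial (Fin n) ℂ),
      Pool.Agent.N754.FV.LaurIn ℂ E (fun l : J => (l : MvPolynomial (Fin n) ℂ)) →
      LaurentIn p J := by
    intro J h v hv1 hv2 hv3 t ht
    rw [pts_iff]
    intro Q hQ
    exact h v hv1 (fun l s hs => (pts_iff p _).1 (hv2 s hs) l.1 l.2) hv3 ⟨Q, hQ⟩ t ht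
  -- from Laurent curves to log general type
  have h51 : ∀ J : Ideal (MvPolynomial (Fin n) ℂ), ¬ J ≤ p → LaurentIn p J →
      OfLogGeneralType p := by
    intro J hJ hLJ
    by_contra hL
    obtain ⟨Q0, hQ0, hQ0p⟩ := SetLike.not_le_iff_exists.1 hJ
    obtain ⟨v, h1, h2, ⟨j, h3⟩, h4⟩ := Pool.Agent.N754.LG.laurent_of_not' hG y hy hadj hL ℂ Q0 hQ0p
    apply h4
    refine (pts_iff J _).1 (hLJ v h1 (fun t ht => (pts_iff p _).2 fun Q hQ => h2 Q hQ t ht)
      ⟨2, 1, two_ne_zero, one_ne_zero, fun h => h3 (congrFun h j)⟩ 1 one_ne_zero) Q0 hQ0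
  tfae_have 2 → 5 := by
    rintro ⟨J, hJ, h⟩
    refine ⟨J, hJ, ?_⟩
    intro v hv hvF ⟨t, s, ht, hs, hne⟩ u hu
    have hd : Differentiable ℂ fun ζ => v (Complex.exp ζ) := by
      rw [differentiable_pi]
      intro j
      exact (Pool.Agent.W235.RM.Laur.expPoly (hv j)).1
    have h1 := h (fun ζ => v (Complex.exp ζ)) hd (fun z => hvF _ (Complex.exp_ne_zero z))
      ⟨Complex.log t, Complex.log s, by
        rw [Complex.exp_log ht, Complex.exp_log hs]
        exact hne⟩ (Complex.log u)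
    rwa [Complex.exp_log hu] at h1
  tfae_have 3 → 5 := by
    rintro ⟨J, hJ, h⟩
    have hFF : IsFF ℂ (RatFunc ℂ) := Pool.Agent.TH143.GT.isFF_ratFunc ℂ
    refine ⟨J, hJ, hLI J (Pool.Agent.N754.LG.laurIn_of_pointed Pool.Agent.N754.LG.rc E _ ?_)⟩
    intro S P0 hP0 x hx hxJ
    refine (h (RatFunc ℂ) S P0 hP0 x ((pts_iff p x).2 fun Q hQ => hx ⟨Q, hQ⟩) ?_).subset ?_
    · intro hxJ'
      obtain ⟨l, hl⟩ := hxJ
      exact hl ((pts_iff J x).1 hxJ' l.1 l.2)
    · rintro f ⟨h1, h2, h3⟩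
      exact ⟨⟨h1, fun Q hQ => h2 ⟨Q, hQ⟩⟩, h3⟩
  tfae_have 4 → 5 := by
    rintro ⟨J, hJ, h⟩
    have hFF : IsFF ℂ (RatFunc ℂ) := Pool.Agent.TH143.GT.isFF_ratFunc ℂ
    refine ⟨J, hJ, hLI J (Pool.Agent.N754.FV.laurIn_of_gm Pool.Agent.N754.LG.rc E _ ?_)⟩
    intro S _
    obtain ⟨B, hB⟩ := h (RatFunc ℂ) S
    exact ⟨B, fun f h1 h2 ⟨l, h3⟩ _ => hB f ⟨h1, fun Q hQ => h2 ⟨Q, hQ⟩⟩
      fun h4 => h3 (h4.2 _ l.2)⟩
  tfae_have 5 → 1 := by
    rintro ⟨J, hJ, h⟩
    exact h51 J hJ h
  tfae_have 6 → 2 := fun ⟨J, hJ, h, _⟩ => ⟨J, hJ, h⟩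
  tfae_have 6 → 3 := fun ⟨J, hJ, _, h, _⟩ => ⟨J, hJ, h⟩
  tfae_have 6 → 4 := fun ⟨J, hJ, _, _, h, _⟩ => ⟨J, hJ, h⟩
  tfae_have 1 → 6 := by
    intro hL
    obtain ⟨H1, hH1, hLI1⟩ := Pool.Agent.N754.LG.laurIn_of_logGT (k := ℂ) Pool.Agent.N754.LG.wr
      Pool.Agent.N754.LG.emb Pool.Agent.N754.LG.rc hG hL
    obtain ⟨H2, hH2, A, hA⟩ := Pool.Agent.N754.LG.boundA_of_logGT (k := ℂ) Pool.Agent.N754.LG.wr
      Pool.Agent.N754.LG.emb hG hL
    have hQ0p : H1 * H2 * H ∉ p := fun h => by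
      rcases hprime.mem_or_mem h with h | h
      · rcases hprime.mem_or_mem h with h | h
        · exact hH1 h
        · exact hH2 h
      · exact hG.notMem h
    have hLJ : LaurentIn p (Ideal.span {H1 * H2 * H}) := by
      intro v hv1 hv2 hv3 t ht
      rw [pts_iff, hspan]
      have h1 := hLI1 v hv1 (fun l s hs => (pts_iff p _).1 (hv2 s hs) l.1 l.2) hv3 () t ht
      rw [map_mul, map_mul, h1, zero_mul, zero_mul]
    have hlin := Pool.Agent.N754.LG.linear_of_max (k := ℂ) Pool.Agent.N754.LG.gz p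
      (Ideal.span {H1 * H2 * H}) A (fun K _ _ _ S f hf hfp hfJ => by
        refine hA K S f hf (fun Q hQ => by rw [hid]; exact hfp Q hQ) ?_
        rw [hid]
        intro h0
        obtain ⟨Q, hQ, hfQ⟩ := hfJ
        exact hfQ ((hspan _ K f).2 (by rw [map_mul, map_mul, h0, mul_zero, zero_mul]) Q hQ))
    have hnotin : ∀ {K : Type} [Field K] [Algebra ℂ K] (S : Finset (Place ℂ K)) (f : Fin n → K),
        f ∈ Maps p S → f ∉ Maps (Ideal.span {H1 * H2 * H}) S →
        ∃ Q ∈ Ideal.span {H1 * H2 * H}, aeval f Q ≠ 0 := by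
      intro K _ _ S f hf hfJ
      by_contra hcon
      push Not at hcon
      exact hfJ ⟨hf.1, hcon⟩
    have hlinB : LinearBound p (Ideal.span {H1 * H2 * H}) :=
      ⟨A, fun K _ _ _ S f hf hfJ hne => hlin K S f hf.1 hf.2 (hnotin S f hf hfJ) hne⟩
    have hbm : BoundedModulo p (Ideal.span {H1 * H2 * H}) := by
      intro K _ _ _ S
      refine ⟨max (A * euler S) 0, fun f hf hfJ => ?_⟩
      by_cases hne : ∃ j, ∀ c : ℂ, f j ≠ algebraMap ℂ K c
      · exact (hlin K S f hf.1 hf.2 (hnotin S f hf hfJ) hne).trans (le_max_left _ _)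
      · push Not at hne
        rw [Pool.Agent.N754.FV.mapDeg_const f hne]
        exact le_max_right _ _
    refine ⟨Ideal.span {H1 * H2 * H}, fun h => hQ0p (h (Ideal.mem_span_singleton_self _)),
      ?_, ?_, hbm, hLJ, hlinB⟩
    · -- entire curves
      obtain ⟨T, hT⟩ := (Submodule.fg_iff_exists_fin_generating_family).1
        (IsNoetherian.noetherian p)
      obtain ⟨F, hF⟩ := hT
      have hF' : Ideal.span (Set.range F) = p := hF
      have hFp : ∀ x : Fin n → ℂ, x ∈ Pool.Agent.N754.FG.Pts F ↔ x ∈ Pts p := by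
        intro x
        constructor
        · intro h Q hQ
          rw [← hF'] at hQ
          have h1 : Ideal.span (Set.range F) ≤ RingHom.ker (eval x) := by
            rw [Ideal.span_le]
            rintro _ ⟨l, rfl⟩
            exact h l
          exact h1 hQ
        · intro h l
          apply h
          rw [← hF']
          exact Ideal.subset_span ⟨l, rfl⟩
      have hSP : Pool.Agent.N754.FG.SP :=
        Pool.Agent.N558.FG.sp (Pool.Agent.N455.FG.rq3 Pool.Agent.N49.FG.rq1)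
      obtain ⟨-, -, hTF⟩ := Pool.Agent.N754.FG.tfaeC hSP Pool.Agent.N441.FG.tr F
        (fun _ : Unit => H1 * H2 * H) U (fun z hz i hi => hU z ((hFp z).1 hz) i hi) (by
          rintro z hz hzG ⟨z', hz', hzU, hne⟩
          exfalso
          apply hne
          refine hG.alone ℂ z z' ((pts_iff p z).1 ((hFp z).1 hz))
            ((pts_iff p z').1 ((hFp z').1 hz')) ?_ hzU
          intro h0
          apply hzG
          intro _
          rw [Pool.Agent.N754.LT.ae_eval] at h0
          rw [map_mul, h0, mul_zero])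
      have h1 : Pool.Agent.N754.FG.LaurentIn F (fun _ : Unit => H1 * H2 * H) := by
        intro v hv1 hv2 hv3 t ht _
        have h2 := hLJ v hv1 (fun t ht => (hFp _).1 (hv2 t ht)) hv3 t ht
        exact h2 _ (Ideal.mem_span_singleton_self _)
      have h2 : Pool.Agent.N754.FG.EntireIn F (fun _ : Unit => H1 * H2 * H) :=
        (hTF.out 0 2).2 h1
      intro f hf1 hf2 hf3 z
      rw [pts_iff, hspan, Pool.Agent.N754.LT.ae_eval]
      exact h2 f hf1 (fun z => (hFp _).2 (hf2 z)) hf3 z ()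
    · -- pointed maps
      intro K _ _ _ S P hP x hx hxJ
      obtain ⟨B, hB⟩ := hbm K S
      have hx0 : eval x (H1 * H2 * H) ≠ 0 := by
        intro h0
        apply hxJ
        rw [pts_iff, hspan, Pool.Agent.N754.LT.ae_eval]
        exact h0
      have hfx : ∀ (f : Fin n → K), (∀ j, Ge P 1 (f j - algebraMap ℂ K (x j))) →
          ∀ R : MvPolynomial (Fin n) ℂ, eval x R ≠ 0 → aeval f R ≠ 0 := by
        intro f hf R hR h0
        have h1 := Pool.Agent.N754.FV.vaeval hf R
        rw [h0] at h1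
        exact Pool.Agent.N754.FV.not_ge_const hR h1
      refine Pool.Agent.N754.LG.pointed_finite Pool.Agent.N754.LG.ptu S P hP U x
        (fun i hi => hU x hx i hi) _ B ?_ ?_ ?_ ?_
      · rintro f ⟨hf, -⟩ i hi
        obtain ⟨B', hB'⟩ := hG.unit i hi
        have h1 : aeval f (B' * X i - 1) = 0 := hf.2 _ hB'
        have hne : f i ≠ 0 := by
          intro h0
          rw [map_sub, map_mul, aeval_X, map_one, h0, mul_zero, zero_sub, neg_eq_zero] at h1
          exact one_ne_zero h1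
        exact ⟨hne, fun Q hQ => (Pool.Agent.N754.LG.unit_ord (P := Q) f
          (fun j => hf.1 j Q hQ) i B' h1).2⟩
      · rintro f ⟨hf, hfv⟩
        refine hB f hf fun h => ?_
        exact hfx f hfv _ hx0 (h.2 _ (Ideal.mem_span_singleton_self _))
      · rintro f ⟨-, hfv⟩
        exact hfv
      · rintro f ⟨hf, hfv⟩ g ⟨hg, -⟩ hfg
        refine (hG.alone K f g hf.2 hg.2 (hfx f hfv H fun h0 => hx0 ?_) fun i hi =>
          (hfg i hi).symm).symm
        rw [map_mul, h0, mul_zero]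
  tfae_finish

end Pool.Agent.Results.MP_c69980_ag.GeneratedByUnits
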