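import Pool.Agent.N154.TC.AGeo
import Pool.Agent.N154.TT.AKob

/-!
Quasi-projective varieties with a map to an abelian variety with hyperbolic fibres are
pseudo-Kobayashi hyperbolic modulo finitely many elliptic curves, if their boundary is hyperbolic
and their 2-forms are positive in the directions of the abelian variety.
-/

set_option autoImplicit false

open FF LinearAlgebra.Projectivization Pool.Agent.W602.GT Pool.Agent.N154.TB Pool.Agent.N154.TC
open Pool.Agent.N154.TT (RiemannForm HolToTorus)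
open Pool.Agent.N154.GG (kobayashi projDist)

/-- Let `Z = {F = 0}` be an irreducible projective variety of dimension `w ≥ 2` with generic point
`y`, and `D a = {P a = 0}` closed subsets of `Z`, each of which is locally, as a set, given by one
equation, such that every holomorphic map from `ℂ` to a stratum of the union of the `D a` is
constant. Let `X = Z - ∪ D a`, which may be singular. Let `S = {G = 0}` be a closed subset of `X`
which contains the points where `X` is not a manifold of dimension `d` and in which every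
holomorphic map `ℂ → S` is constant, and let `α : Z → ℂᵐ / Λ` be holomorphic, such that the fibres
of `α` in `X` are Brody hyperbolic. Assume that the 2-forms of `X` are positive outside `S` in the
directions of the torus (see `TwoForms`; no condition on the 2-forms at the `D a`), and that the
torus `ℂᵐ / Λ` has a Riemann form `H`, thus is an abelian variety, or that `X` has no elliptic
curves.

Then there is a finite set `T` of nonconstant holomorphic maps `g` from elliptic curves `ℂ / L` to
`X` (`α ∘ g` is a nonconstant affine map) such that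

* the Kobayashi pseudodistance `d (p, q)` of two different points of `X` is positive if one of them
  is not on the image of a map in `T`, and for every `ε > 0` there is a number `c > 0` such that
  `d (p, q) ≥ c D ^ ε min (D, dist p q)`, where `D ≤ 1` is the distance of `p` from the union of
  the images of the maps in `T`;
* every nonconstant holomorphic map `f : ℂ → X` is the composition of a map in `T` with an entire
  function;
* some form `Q` which is not zero on `X` vanishes on the images of the maps in `T`, so `X` is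
  pseudo-Kobayashi hyperbolic. -/
theorem Pool.Agent.Results.MP_c69980_ag.QuasiProjectiveOverAbelian.result {n d m w : ℕ}
    {ι ι' ι'' A : Type} (F : ι → MvPolynomial (Fin (n + 1)) ℂ) (hF : ∀ i, IsForm (F i)) {K : Type}
    [Field K] [Algebra ℂ K] (y : Fin (n + 1) → K) (hw : 2 ≤ w) (hy : SubVar F K w y)
    (hirr : Cone F ⊆ VarPts ℂ y)
    (P : A → ι'' → MvPolynomial (Fin (n + 1)) ℂ) (hP : ∀ a i, IsForm (P a i))
    (hloc : ∀ a, LocOne F (P a)) (hD : ∀ I : Set A, I.Nonempty → BrodyHyp (Stratum F P I))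
    (G : ι' → MvPolynomial (Fin (n + 1)) ℂ) (hG : ∀ j, IsForm (G j))
    (hS : BrodyHyp (Compl F P ∩ Zeros G)) (Λ : Submodule ℤ (Fin m → ℂ)) [DiscreteTopology Λ]
    [IsZLattice ℝ Λ] (α : (Fin (n + 1) → ℂ) → (Fin m → ℂ) ⧸ Λ) (hα : HolToTorus (Cone F) Λ α)
    (hfib : HypFibres (Compl F P) α) {κ : Type} (k : κ → ℕ)
    (η : κ → (Fin (n + 1) → ℂ) → (Fin (n + 1) → ℂ) → (Fin (n + 1) → ℂ) → ℂ)
    (hη : TwoForms (Compl F P) (Zeros G) d α k η) (H : (Fin m → ℂ) → (Fin m → ℂ) → ℂ)
    (hH : RiemannForm Λ H ∨ ∀ g, CurveIn (Compl F P) g → Elliptic g → IsConst g) :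
    ∃ T : Set (ℂ → ℙ ℂ (Fin (n + 1) → ℂ)), T.Finite ∧
      (∀ g ∈ T, CurveIn (Compl F P) g ∧ Elliptic g ∧ OverLine α g) ∧
      (∀ p q : ℙ ℂ (Fin (n + 1) → ℂ), p.rep ∈ Compl F P → q.rep ∈ Compl F P → p ≠ q →
        (∀ g ∈ T, ∀ z, p ≠ g z) ∨ (∀ g ∈ T, ∀ z, q ≠ g z) → 0 < kobayashi (Compl F P) p q) ∧
      (∀ ε : ℝ, 0 < ε → ∃ c : ℝ, 0 < c ∧ ∀ p q : ℙ ℂ (Fin (n + 1) → ℂ),
        p.rep ∈ Compl F P → q.rep ∈ Compl F P → ∀ D : ℝ, 0 ≤ D → D ≤ 1 →
        (∀ g ∈ T, ∀ z, D ≤ projDist p (g z)) →
          ENNReal.ofReal (c * D ^ ε * min D (projDist p q)) ≤ kobayashi (Compl F P) p q) ∧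
      (∀ f, CurveIn (Compl F P) f → IsConst f ∨ Factors T f) ∧
      ∃ Q : MvPolynomial (Fin (n + 1)) ℂ, IsForm Q ∧ val y Q ≠ 0 ∧
        ∀ g ∈ T, ∀ z, val (g z).rep Q = 0 := by
  obtain ⟨T, h1, h2, h3, -, h5, h6, h7⟩ := open_geo hF hP hD hloc hG hS hη hα hfib hH
  have hpos : ∀ p q : ℙ ℂ (Fin (n + 1) → ℂ), p.rep ∈ Compl F P → q.rep ∈ Compl F P → p ≠ q →
      (∀ g ∈ T, ∀ z, p ≠ g z) → 0 < kobayashi (Compl F P) p q := by
    intro p q hp hq hpq hn
    obtain ⟨D, hD0, hD1, hD⟩ := h6 p hn
    obtain ⟨c, hc, hlow⟩ := h5 1 one_pos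
    have hne : Pool.Agent.Y190.OP.Phi p.rep - Pool.Agent.Y190.OP.Phi q.rep ≠ 0 := fun h =>
      hpq (Pool.Agent.N154.GG.proj_ext (sub_eq_zero.1 h))
    have hne' : 0 < projDist p q := norm_pos_iff.2 hne
    refine lt_of_lt_of_le (ENNReal.ofReal_pos.2 ?_) (hlow p q hp hq D hD0.le hD1 hD)
    positivity
  refine ⟨T, h1, h2, fun p q hp hq hpq hor => ?_, h5, h3, h7 K w y hw hy hirr⟩
  rcases hor with h | h
  · exact hpos p q hp hq hpq h
  · rw [Pool.Agent.N154.TT.kob_symm]
    exact hpos q p hq hp hpq.symm h
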